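import Pool.Agent.U426.PivGame
set_option autoImplicit false

/-!
# The game of the fibres on the 5-cube: 11 rounds are enough

A set of vertices of the 5-cube is a number below `2 ^ 32`; `ops` holds five reflections and ten
transpositions of coordinates as operations on such numbers. The tables `lev1, …, lev11` hold positions
`(D, g, moves)`: `g` is the vertex to name; `moves` lists, for every maximal set `S` of directions for which a
face without vertices in `D` exists, the position of the next lower level which is (after the operations)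
contained in the new position.
-/

namespace Pool.Agent.U426.Piv

open Finset

section Symmetry

variable {κ : Type} [DecidableEq κ]

omit [DecidableEq κ] in
/-- symmetry of the game -/
lemma Qry.symm {Φ Ψ : (κ → Bool) → (κ → Bool)} (σ : κ ≃ κ) (h1 : ∀ x, Φ (Ψ x) = x)
    (h2 : ∀ x y j, Φ x j = Φ y j ↔ x (σ j) = y (σ j)) :
    ∀ (s : ℕ) (E : Set (κ → Bool)), Qry s {x | Φ x ∈ E} → Qry s E := by
  intro s
  induction s with
  | zero =>
    intro E h u
    have := h (Ψ u)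
    simpa [h1] using this
  | succ s ih =>
    intro E h
    obtain ⟨g, hg⟩ := h
    refine ⟨Φ g, fun u S hu hS => ?_⟩
    have h3 := hg (Ψ u) (S.map σ.toEmbedding) (by
      intro k hk
      obtain ⟨j, hj, rfl⟩ := Finset.mem_map.1 hk
      refine (h2 _ _ j).1 ?_
      rw [h1]; exact hu j hj) (by
      intro x hx
      refine hS (Φ x) fun j hj => ?_
      have : Φ x j = Φ (Ψ u) j := (h2 _ _ j).2 (hx (σ j) (by simpa using hj))
      rw [this, h1])
    refine ih _ (h3.mono ?_)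
    rintro x (hx | hx)
    · exact Or.inl hx
    · right
      intro j hj
      have : Φ x j = Φ (Ψ u) j := (h2 _ _ j).2 (hx (σ j) (by simpa using hj))
      rw [this, h1]

lemma Qry.symm_flip (i : κ) (s : ℕ) (E : Set (κ → Bool)) (h : Qry s {x | flip x i ∈ E}) :
    Qry s E := by
  refine Qry.symm (Φ := fun x => flip x i) (Ψ := fun x => flip x i) (Equiv.refl κ)
    (fun x => flip_flip x i) (fun x y j => ?_) s E h
  by_cases hj : j = i
  · subst hj
    simp [flip_self]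
  · simp [flip_of_ne _ hj]

omit [DecidableEq κ] in
lemma Qry.symm_comp (e : κ ≃ κ) (s : ℕ) (E : Set (κ → Bool)) (h : Qry s {x | x ∘ e ∈ E}) :
    Qry s E := by
  refine Qry.symm (Φ := fun x => x ∘ e) (Ψ := fun x => x ∘ e.symm) e
    (fun x => by funext j; simp) (fun x y j => ?_) s E h
  simp

omit [DecidableEq κ] in
lemma qry_univ (s : ℕ) : Qry s (Set.univ : Set (κ → Bool)) := by
  induction s with
  | zero => exact fun u => trivial
  | succ s ih => exact ⟨fun _ => true, fun u S _ hS => absurd trivial (hS u fun _ _ => rfl)⟩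

end Symmetry

section Masks

/-- the vertex with the number `m` -/
def dec (m : ℕ) : Fin 5 → Bool := fun i => m.testBit i

/-- the set of vertices with the number `D` -/
def MS (D : ℕ) : Set (Fin 5 → Bool) := {x | ∃ m < 32, D.testBit m = true ∧ x = dec m}

/-- the operation with the data `o` -/
def app (o : ℕ × ℕ × ℕ) (D : ℕ) : ℕ :=
  (D &&& o.1) ||| (((D &&& o.2.1) <<< o.2.2) ||| ((D >>> o.2.2) &&& o.2.1))

/-- `app o` is the operation of `Φ` -/
def Good (o : ℕ × ℕ × ℕ) (Φ : (Fin 5 → Bool) → (Fin 5 → Bool)) : Prop :=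
  ∀ u < 32, (o.1.testBit u = true → Φ (dec u) = dec u) ∧
    (o.2.1.testBit u = true → u + o.2.2 < 32 ∧ Φ (dec u) = dec (u + o.2.2) ∧
      Φ (dec (u + o.2.2)) = dec u)

lemma MS_mono {D D' : ℕ} (h : D &&& D' = D) : MS D ⊆ MS D' := by
  rintro x ⟨m, hm, hD, rfl⟩
  refine ⟨m, hm, ?_, rfl⟩
  rw [← h, Nat.testBit_and, Bool.and_eq_true] at hD
  exact hD.2

lemma MS_or {D D' : ℕ} : MS (D ||| D') = MS D ∪ MS D' := by
  ext x
  constructor
  · rintro ⟨m, hm, hD, rfl⟩
    rw [Nat.testBit_or, Bool.or_eq_true] at hD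
    rcases hD with hD | hD
    · exact Or.inl ⟨m, hm, hD, rfl⟩
    · exact Or.inr ⟨m, hm, hD, rfl⟩
  · rintro (⟨m, hm, hD, rfl⟩ | ⟨m, hm, hD, rfl⟩) <;>
    exact ⟨m, hm, by rw [Nat.testBit_or, hD]; simp, rfl⟩

lemma MS_app {o : ℕ × ℕ × ℕ} {Φ : (Fin 5 → Bool) → (Fin 5 → Bool)} (ho : Good o Φ) (D : ℕ)
    {x : Fin 5 → Bool} (hx : x ∈ MS (app o D)) : Φ x ∈ MS D := by
  obtain ⟨m, hm, hD, rfl⟩ := hx
  rw [app, Nat.testBit_or, Nat.testBit_or, Nat.testBit_and, Nat.testBit_shiftLeft, Nat.testBit_and,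
    Nat.testBit_and, Nat.testBit_shiftRight] at hD
  simp only [Bool.or_eq_true, Bool.and_eq_true, decide_eq_true_eq] at hD
  rcases hD with ⟨h1, h2⟩ | ⟨h0, h1, h2⟩ | ⟨h1, h2⟩
  · exact ⟨m, hm, h1, (ho m hm).1 h2⟩
  · have h3 := (ho (m - o.2.2) (by omega)).2 h2
    refine ⟨m - o.2.2, by omega, h1, ?_⟩
    have h4 := h3.2.2
    rwa [Nat.sub_add_cancel h0] at h4
  · have h3 := (ho m hm).2 h2
    refine ⟨m + o.2.2, h3.1, ?_, h3.2.1⟩
    rwa [Nat.add_comm]

lemma code_spec : ∀ a b c d e : Bool,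
    (a.toNat + 2 * b.toNat + 4 * c.toNat + 8 * d.toNat + 16 * e.toNat) < 32 ∧
    (4294967295 : ℕ).testBit (a.toNat + 2 * b.toNat + 4 * c.toNat + 8 * d.toNat + 16 * e.toNat) = true ∧
    (a.toNat + 2 * b.toNat + 4 * c.toNat + 8 * d.toNat + 16 * e.toNat).testBit 0 = a ∧
    (a.toNat + 2 * b.toNat + 4 * c.toNat + 8 * d.toNat + 16 * e.toNat).testBit 1 = b ∧
    (a.toNat + 2 * b.toNat + 4 * c.toNat + 8 * d.toNat + 16 * e.toNat).testBit 2 = c ∧
    (a.toNat + 2 * b.toNat + 4 * c.toNat + 8 * d.toNat + 16 * e.toNat).testBit 3 = d ∧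
    (a.toNat + 2 * b.toNat + 4 * c.toNat + 8 * d.toNat + 16 * e.toNat).testBit 4 = e := by
  decide +kernel

lemma MS_full : MS 4294967295 = Set.univ := by
  ext x
  simp only [Set.mem_univ, iff_true]
  obtain ⟨h1, h2, h3, h4, h5, h6, h7⟩ := code_spec (x 0) (x 1) (x 2) (x 3) (x 4)
  refine ⟨_, h1, h2, ?_⟩
  funext i
  fin_cases i
  · exact h3.symm
  · exact h4.symm
  · exact h5.symm
  · exact h6.symm
  · exact h7.symm

lemma MS_zero : MS 0 = ∅ := by
  ext x
  simp [MS]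

end Masks

/-- five reflections and ten transpositions -/
def ops : List (ℕ × ℕ × ℕ) := [(0, 1431655765, 1), (0, 858993459, 2), (0, 252645135, 4), (0, 16711935, 8), (0, 65535, 16), (2576980377, 572662306, 1), (2779096485, 168430090, 3), (2857740885, 11141290, 7), (2863289685, 43690, 15), (3284386755, 202116108, 2), (3425946675, 13369548, 6), (3435934515, 52428, 14), (4027576335, 15728880, 4), (4042264335, 61680, 12), (4278190335, 65280, 8)]
/-- the positions that need at most 1 rounds -/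
def lev1 : List (ℕ × ℕ × List (ℕ × ℕ × List ℕ)) := [
  (4160748543, 10, [(0, 99, [])]),
  (4294967271, 3, [(0, 99, [])])]
/-- the positions that need at most 2 rounds -/
def lev2 : List (ℕ × ℕ × List (ℕ × ℕ × List ℕ)) := [
  (4127193855, 8, [(2, 0, [])]),
  (3011509247, 26, [(1, 0, [0, 2, 6, 14]), (4, 0, [0, 1, 9, 14]), (16, 0, [])]),
  (3212824543, 13, [(1, 0, [5, 9]), (8, 0, [5, 12])]),
  (3573546975, 25, [(1, 0, [11]), (2, 0, []), (4, 0, [7, 9])]),
  (4025483239, 20, [(8, 0, [0, 9]), (16, 1, [])]),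
  (3208634367, 22, [(1, 1, [0, 2, 8, 12]), (8, 1, [2, 3, 6, 8])])]
/-- the positions that need at most 3 rounds -/
def lev3 : List (ℕ × ℕ × List (ℕ × ℕ × List ℕ)) := [
  (3590310655, 13, [(1, 4, [1, 11, 12]), (2, 0, []), (4, 0, []), (16, 3, [])]),
  (3723480815, 12, [(1, 2, [0, 8, 12]), (4, 0, []), (8, 4, []), (16, 3, [8])]),
  (3584819199, 18, [(2, 3, [8]), (4, 2, [5, 14])]),
  (4146589679, 22, [(1, 5, [6]), (2, 5, [0, 1, 8]), (4, 5, [6]), (8, 3, [7]), (16, 4, [14])]),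
  (3011496671, 8, [(1, 2, [6]), (2, 1, []), (4, 2, []), (8, 2, []), (16, 1, [])]),
  (3320836079, 28, [(1, 3, []), (2, 0, []), (4, 0, []), (24, 5, [0, 1, 8])]),
  (2214587391, 26, [(1, 3, []), (2, 1, [9]), (4, 1, [9]), (16, 2, [5, 12])]),
  (3305107407, 28, [(2, 0, []), (5, 3, []), (8, 4, [8]), (16, 4, [0, 8])]),
  (4025478887, 12, [(4, 4, [12]), (24, 4, [])]),
  (4067684351, 19, [(2, 2, [8, 12]), (4, 2, []), (9, 3, [1, 2, 5, 6, 7])]),
  (3007305215, 27, [(1, 2, [1, 6, 13]), (2, 2, [6]), (4, 5, []), (8, 5, []), (16, 1, [1, 5, 8])])]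
/-- the positions that need at most 4 rounds -/
def lev4 : List (ℕ × ℕ × List (ℕ × ℕ × List ℕ)) := [
  (3584805611, 2, [(1, 0, []), (2, 1, []), (4, 4, [5, 9, 10, 13]), (8, 0, []), (16, 2, [])]),
  (4121160427, 18, [(1, 9, [5]), (2, 1, []), (4, 3, []), (8, 0, []), (16, 0, [0, 1, 5, 9, 11, 12])]),
  (4146326251, 18, [(2, 1, []), (5, 3, []), (8, 0, []), (16, 0, [0, 1, 5, 9, 11, 12])]),
  (3590310603, 13, [(2, 1, [9]), (4, 1, [9]), (9, 1, [0, 1, 3, 6, 10, 11]), (16, 0, [])]),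
  (4289448651, 4, [(2, 3, [9]), (4, 1, [9]), (9, 4, []), (16, 2, [])]),
  (2434784223, 21, [(1, 6, [10]), (2, 6, [10]), (4, 6, [6]), (24, 4, [0, 4, 8])]),
  (2438454239, 21, [(1, 4, []), (2, 6, [6, 10]), (4, 5, [0, 9, 13]), (24, 4, [0, 4, 8])]),
  (2501369823, 21, [(1, 10, []), (2, 10, [7]), (4, 9, [5]), (24, 10, [5, 6, 10])]),
  (3007302351, 4, [(2, 6, [10]), (4, 4, []), (9, 4, []), (16, 10, [])]),
  (3010972383, 5, [(1, 4, []), (2, 6, [6, 10]), (4, 5, [9, 12]), (8, 4, []), (16, 10, [6])]),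
  (3587697347, 2, [(1, 0, [1, 4, 5, 9, 11, 12]), (2, 0, [1, 2, 3, 9, 12]), (4, 7, [7]), (8, 0, []), (16, 0, [0, 1, 5, 12, 14])]),
  (3318214599, 21, [(2, 4, [7]), (4, 6, [6, 12]), (9, 5, []), (17, 9, [0, 3, 5, 6, 8]), (24, 4, [1, 2, 3, 4, 6, 10, 11])]),
  (3586392003, 19, [(2, 5, [7]), (4, 5, [7]), (8, 0, []), (17, 6, [0, 3, 8])]),
  (2203577303, 19, [(1, 6, []), (2, 6, [5, 12]), (4, 6, [5, 12]), (8, 6, []), (16, 2, [0, 4])]),
  (2237132759, 19, [(1, 6, []), (2, 1, [0, 4]), (4, 6, [5, 12]), (8, 6, [5]), (16, 4, [7])]),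
  (2211441615, 28, [(2, 4, []), (4, 4, []), (9, 5, [7]), (17, 4, [5, 12]), (24, 9, [0, 3, 5, 6, 8, 10])]),
  (2244997071, 28, [(2, 4, []), (4, 0, []), (9, 5, [7]), (17, 7, [7]), (24, 7, [0, 1, 10, 13])]),
  (3305107143, 8, [(2, 0, [7]), (5, 4, [1, 2, 3, 4, 6, 10, 11]), (8, 7, [7, 11]), (20, 7, [])]),
  (3840405223, 24, [(1, 6, [6, 12]), (2, 4, [7]), (20, 8, []), (24, 10, [0, 1, 2, 3, 4, 6, 13])]),
  (3304058607, 28, [(2, 0, []), (5, 4, [5, 11]), (20, 10, [0, 1, 8]), (24, 1, [])]),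
  (3495153663, 25, [(3, 9, []), (4, 0, [12]), (9, 4, [0, 1, 5, 14]), (16, 0, [])]),
  (4067684207, 4, [(2, 7, [1, 2, 6, 7, 14]), (4, 9, []), (9, 4, [0, 4, 9, 12]), (16, 9, [])]),
  (3007287807, 14, [(2, 10, []), (8, 3, []), (17, 10, []), (20, 7, [1, 2, 13])])]
/-- the positions that need at most 5 rounds -/
def lev5 : List (ℕ × ℕ × List (ℕ × ℕ × List ℕ)) := [
  (3573795531, 21, [(3, 2, []), (5, 1, []), (9, 0, []), (17, 4, []), (24, 3, [])]),
  (2433997787, 18, [(2, 5, []), (5, 7, []), (9, 6, []), (12, 5, []), (24, 9, [0, 4, 8])]),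
  (3006515915, 18, [(2, 3, []), (5, 8, [7]), (9, 9, []), (12, 8, []), (24, 6, [0, 4, 8])]),
  (3495156443, 26, [(3, 20, [1, 2, 3, 8, 10]), (4, 5, []), (9, 20, [1, 2, 3, 8]), (18, 5, [1, 2, 4, 9, 14]), (24, 9, [0, 1, 2, 3, 4, 8, 9])]),
  (3234065091, 24, [(3, 11, [9]), (5, 11, []), (9, 12, []), (17, 10, []), (18, 11, [0, 4, 8, 9]), (20, 11, [0, 4, 8]), (24, 12, [0, 4])]),
  (2153245399, 24, [(3, 14, [9]), (5, 14, []), (6, 13, []), (8, 13, []), (18, 13, [2, 4, 13]), (20, 13, [1, 4, 11])]),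
  (2161109711, 24, [(3, 5, []), (5, 16, []), (6, 15, []), (9, 11, []), (17, 10, []), (18, 8, []), (20, 16, [0, 4, 8]), (24, 15, [0, 1, 5, 8, 10])]),
  (3293048519, 21, [(2, 13, []), (5, 18, []), (9, 19, []), (17, 15, [1, 3, 5, 6, 8]), (20, 1, [0, 1, 3, 5, 6, 13]), (24, 17, [])]),
  (2211431375, 12, [(2, 22, []), (4, 22, []), (25, 11, [0, 1, 2, 7, 9])]),
  (3495153487, 5, [(3, 21, []), (4, 20, []), (9, 11, [1, 2, 4, 5, 10, 11]), (18, 20, [10]), (24, 20, [])]),
  (3495165767, 19, [(3, 22, [0, 1, 3, 12, 14]), (9, 21, [10]), (18, 18, [8, 9, 10]), (20, 2, [8, 9])]),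
  (3495163767, 19, [(3, 20, []), (9, 16, [5, 9, 12, 13]), (20, 22, [5, 7]), (24, 2, [0, 1, 2, 3, 9])]),
  (4199804487, 4, [(1, 20, [8, 12]), (8, 17, [5]), (18, 18, [0, 10]), (20, 18, [0, 10])]),
  (2449462615, 3, [(1, 5, []), (8, 22, [5, 6, 10]), (18, 15, [6, 14]), (20, 6, [10, 11])]),
  (3007287583, 7, [(2, 3, [6]), (17, 20, [5, 8, 9]), (20, 22, []), (24, 22, [])])]
/-- the positions that need at most 6 rounds -/
def lev6 : List (ℕ × ℕ × List (ℕ × ℕ × List ℕ)) := [
  (2147732171, 28, [(3, 1, []), (5, 3, []), (6, 6, [9, 12]), (10, 6, [10]), (12, 4, [10]), (18, 2, []), (20, 3, [0, 1, 5, 10, 11]), (25, 0, [])]),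
  (2147740355, 22, [(3, 7, []), (5, 7, [9]), (6, 4, []), (9, 5, []), (10, 6, []), (12, 6, [9]), (17, 0, [8]), (18, 4, []), (20, 4, []), (24, 5, [0, 4, 8])]),
  (2198062019, 22, [(3, 8, [7]), (5, 8, [7, 9]), (10, 8, []), (12, 8, [9]), (25, 4, [0, 1, 2, 14])]),
  (3495150663, 9, [(3, 4, [1, 2, 6, 7, 14]), (5, 2, [5, 9, 13]), (9, 12, []), (17, 0, [12]), (18, 11, []), (20, 9, []), (24, 10, [])]),
  (2433996119, 23, [(5, 4, [1, 5, 14]), (9, 9, [6, 7]), (12, 0, [0, 1, 2, 7, 8]), (18, 13, [1, 2, 3, 10]), (20, 3, [4, 8]), (24, 13, [])]),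
  (2148503839, 29, [(3, 4, [0, 1, 2, 3, 5, 10]), (5, 4, [0, 1, 2, 3, 5, 10]), (6, 4, [0, 1, 2, 3, 5, 10]), (9, 4, [0, 1, 2, 3, 5, 10]), (10, 4, [0, 1, 2, 3, 5, 10]), (17, 4, [2, 6, 10, 11]), (18, 14, []), (20, 4, [0, 2, 3, 4, 10, 14]), (24, 4, [0, 2, 3, 4, 10, 14])]),
  (2148514747, 30, [(3, 7, []), (5, 3, []), (6, 4, []), (9, 7, [10]), (10, 4, [12]), (12, 4, [10]), (20, 4, [10, 11]), (24, 4, [10, 13])])]
/-- the positions that need at most 7 rounds -/
def lev7 : List (ℕ × ℕ × List (ℕ × ℕ × List ℕ)) := [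
  (2147729603, 9, [(6, 2, []), (10, 2, []), (12, 2, []), (19, 0, [9]), (21, 0, []), (25, 1, [])]),
  (2147730503, 28, [(3, 4, []), (6, 6, [6, 10, 14]), (10, 6, [7, 9, 13]), (12, 1, [0, 10]), (18, 2, [4, 6, 13]), (21, 3, []), (25, 3, [12])]),
  (2148503825, 3, [(3, 1, [2, 6, 14]), (5, 0, [0, 1, 2, 3, 6]), (6, 0, [0, 1, 2, 3, 5, 6]), (9, 0, [0, 1, 2, 3, 6, 7]), (10, 0, [0, 1, 2, 3, 5, 6, 7]), (12, 5, []), (17, 6, []), (18, 6, [5]), (20, 5, []), (24, 5, [])])]
/-- the positions that need at most 8 rounds -/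
def lev8 : List (ℕ × ℕ × List (ℕ × ℕ × List ℕ)) := [
  (2147713027, 14, [(19, 1, []), (21, 1, [9]), (22, 0, []), (25, 1, [10]), (26, 0, [12]), (28, 0, [10])]),
  (2148499457, 12, [(12, 0, [4, 10, 14]), (19, 2, []), (21, 0, [4, 5, 11]), (22, 0, [4, 11]), (25, 0, [4, 5, 11, 12]), (26, 0, [4, 11, 12])])]
/-- the positions that need at most 9 rounds -/
def lev9 : List (ℕ × ℕ × List (ℕ × ℕ × List ℕ)) := [
  (2147516417, 16, [(7, 0, [7]), (11, 0, [6]), (13, 0, [5]), (14, 0, []), (19, 1, [6, 10]), (21, 1, [7]), (22, 1, [10]), (25, 1, [6]), (26, 1, [9]), (28, 1, [])])]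
/-- the positions that need at most 10 rounds -/
def lev10 : List (ℕ × ℕ × List (ℕ × ℕ × List ℕ)) := [
  (1, 31, [(15, 0, []), (23, 0, [14]), (27, 0, [13]), (29, 0, [11]), (30, 0, [8])])]
/-- the positions that need at most 11 rounds -/
def lev11 : List (ℕ × ℕ × List (ℕ × ℕ × List ℕ)) := [
  (0, 0, [(31, 0, [])])]

section Check

lemma good_flip (i : Fin 5) : Good (ops.getD i (0, 0, 0)) (fun x => flip x i) := by
  fin_cases i <;> (unfold Good; decide +kernel)

/-- the pairs of coordinates -/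
def prs : List (Fin 5 × Fin 5) :=
  [(0, 1), (0, 2), (0, 3), (0, 4), (1, 2), (1, 3), (1, 4), (2, 3), (2, 4), (3, 4)]

lemma good_swap (i : Fin 10) : Good (ops.getD (5 + i) (0, 0, 0))
    (fun x => x ∘ (Equiv.swap (prs.getD i (0, 0)).1 (prs.getD i (0, 0)).2)) := by
  fin_cases i <;> (unfold Good; decide +kernel)

/-- apply a list of operations -/
def apps : List ℕ → ℕ → ℕ
  | [], D => D
  | c :: l, D => apps l (app (ops.getD c (0, 0, 0)) D)

lemma qry_app (c s D : ℕ) (h : Qry s (MS (app (ops.getD c (0, 0, 0)) D))) : Qry s (MS D) := by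
  by_cases h5 : c < 5
  · have h1 := good_flip ⟨c, h5⟩
    exact Qry.symm_flip (⟨c, h5⟩ : Fin 5) s _ (h.mono fun x hx => MS_app h1 D hx)
  by_cases h15 : c < 15
  · have h1 := good_swap ⟨c - 5, by omega⟩
    rw [show 5 + ((⟨c - 5, by omega⟩ : Fin 10) : ℕ) = c by simp; omega] at h1
    exact Qry.symm_comp _ s _ (h.mono fun x hx => MS_app h1 D hx)
  · have h1 : ops.getD c (0, 0, 0) = (0, 0, 0) := by
      rw [List.getD_eq_default]
      show ops.length ≤ c
      simp [ops]; omega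
    rw [h1] at h
    refine h.mono ?_
    have h2 : app (0, 0, 0) D = 0 := by simp [app]
    rw [h2, MS_zero]
    exact Set.empty_subset _

lemma qry_apps (s : ℕ) : ∀ (l : List ℕ) (D : ℕ), Qry s (MS (apps l D)) → Qry s (MS D)
  | [], _, h => h
  | _ :: l, _, h => qry_app _ s _ (qry_apps s l _ h)

/-- all maximal sets of directions are covered by `ms` -/
def cov (ms : List ℕ) : List ℕ → ℕ → ℕ → Bool
  | [], _, σ => ms.any fun S => (σ &&& S) == σ
  | c :: l, D, σ => cov ms l D σ &&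
      ((D ||| app (ops.getD c (0, 0, 0)) D == 4294967295) ||
        cov ms l (D ||| app (ops.getD c (0, 0, 0)) D) (σ ||| (1 <<< c)))

/-- the face through `g` with the coordinates of `S` fixed -/
def smc (S : ℕ) : List ℕ → ℕ → ℕ
  | [], X => X
  | c :: l, X => smc S l (if S.testBit c then X else X ||| app (ops.getD c (0, 0, 0)) X)

lemma cov_sound (ms : List ℕ) : ∀ (l : List ℕ), (∀ c ∈ l, c < 5) → ∀ (D σ : ℕ),
    cov ms l D σ = true → ∀ (T : Finset (Fin 5)), (∀ i ∈ T, (i : ℕ) ∈ l) → ∀ u : Fin 5 → Bool,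
    Legal (MS D) u T → ∃ S ∈ ms, ∀ i : Fin 5, (σ.testBit i = true ∨ i ∈ T) → S.testBit i = true := by
  intro l
  induction l with
  | nil =>
    intro _ D σ h T hT u _
    rw [cov, List.any_eq_true] at h
    obtain ⟨S, hS, h1⟩ := h
    refine ⟨S, hS, fun i hi => ?_⟩
    rcases hi with hi | hi
    · have h2 : σ &&& S = σ := by simpa using h1
      rw [← h2, Nat.testBit_and, Bool.and_eq_true] at hi
      exact hi.2
    · exact absurd (hT i hi) (by simp)
  | cons c l ih =>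
    intro hl D σ h T hT u hu
    rw [cov, Bool.and_eq_true, Bool.or_eq_true] at h
    have hc : c < 5 := hl c (by simp)
    have hl' : ∀ c ∈ l, c < 5 := fun d hd => hl d (by simp [hd])
    by_cases hcT : (⟨c, hc⟩ : Fin 5) ∈ T
    · have h1 := good_flip ⟨c, hc⟩
      have hleg : Legal (MS (D ||| app (ops.getD c (0, 0, 0)) D)) u (T.erase ⟨c, hc⟩) := by
        intro x hx hxD
        rw [MS_or] at hxD
        rcases hxD with hxD | hxD
        · exact hu x (fun i hi => hx i fun h => hi (Finset.mem_of_mem_erase h)) hxD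
        · refine hu _ (fun i hi => ?_) (MS_app h1 D hxD)
          have hne : i ≠ ⟨c, hc⟩ := by rintro rfl; exact hi hcT
          rw [flip_of_ne _ hne]
          exact hx i fun h => hi (Finset.mem_of_mem_erase h)
      rcases h.2 with h2 | h2
      · exfalso
        have h3 : D ||| app (ops.getD c (0, 0, 0)) D = 4294967295 := by simpa using h2
        rw [h3, MS_full] at hleg
        exact hleg u (fun _ _ => rfl) trivial
      · obtain ⟨S, hS, h3⟩ := ih hl' _ _ h2 (T.erase ⟨c, hc⟩) (by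
          intro i hi
          rcases List.mem_cons.1 (hT i (Finset.mem_of_mem_erase hi)) with h | h
          · exact absurd (Fin.ext h) (Finset.ne_of_mem_erase hi)
          · exact h) u hleg
        refine ⟨S, hS, fun i hi => h3 i ?_⟩
        rcases hi with hi | hi
        · left; rw [Nat.testBit_or, hi]; simp
        · by_cases hic : i = ⟨c, hc⟩
          · left
            rw [Nat.testBit_or, hic]
            simp [Nat.testBit_shiftLeft]
          · right; exact Finset.mem_erase.2 ⟨hic, hi⟩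
    · refine ih hl' _ _ h.1 T (fun i hi => ?_) u hu
      rcases List.mem_cons.1 (hT i hi) with h | h
      · exact absurd (show (⟨c, hc⟩ : Fin 5) ∈ T by
          have : i = ⟨c, hc⟩ := Fin.ext h
          rwa [this] at hi) hcT
      · exact h

lemma smc_sound (S : ℕ) (y : Fin 5 → Bool) : ∀ (l : List ℕ), (∀ c ∈ l, c < 5) → ∀ (X : ℕ),
    (∀ x ∈ MS X, ∀ i : Fin 5, S.testBit i = true → x i = y i) →
    ∀ x ∈ MS (smc S l X), ∀ i : Fin 5, S.testBit i = true → x i = y i := by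
  intro l
  induction l with
  | nil => intro _ X h; exact h
  | cons c l ih =>
    intro hl X h
    have hc : c < 5 := hl c (by simp)
    refine ih (fun d hd => hl d (by simp [hd])) _ ?_
    intro x hx i hi
    by_cases hS : S.testBit c = true
    · rw [if_pos hS] at hx
      exact h x hx i hi
    · rw [if_neg hS, MS_or] at hx
      rcases hx with hx | hx
      · exact h x hx i hi
      · have h1 := h _ (MS_app (good_flip ⟨c, hc⟩) X hx) i hi
        rwa [flip_of_ne] at h1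
        rintro rfl
        exact hS hi

/-- check of one move -/
def chkMove (prev : List ℕ) (D g : ℕ) (m : ℕ × ℕ × List ℕ) : Bool :=
  (prev.getD m.2.1 4294967295 &&& apps m.2.2 (D ||| smc m.1 [0, 1, 2, 3, 4] (1 <<< g))) ==
    prev.getD m.2.1 4294967295

/-- check of one position -/
def chkPos (prev : List ℕ) (e : ℕ × ℕ × List (ℕ × ℕ × List ℕ)) : Bool :=
  cov (e.2.2.map Prod.fst) [0, 1, 2, 3, 4] e.1 0 && e.2.2.all (chkMove prev e.1 e.2.1)

/-- check of all levels -/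
def chk : List ℕ → List (List (ℕ × ℕ × List (ℕ × ℕ × List ℕ))) → Bool
  | prev, [] => prev.any fun D => D == 0
  | prev, t :: ts => t.all (chkPos prev) && chk (t.map Prod.fst) ts

lemma chkPos_sound {prev : List ℕ} {s : ℕ} (hp : ∀ D ∈ prev, Qry s (MS D))
    {e : ℕ × ℕ × List (ℕ × ℕ × List ℕ)} (hg : e.2.1 < 32) (he : chkPos prev e = true) :
    Qry (s + 1) (MS e.1) := by
  obtain ⟨D, g, ms⟩ := e
  simp only [chkPos, Bool.and_eq_true, List.all_eq_true] at he
  simp only at hg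
  refine ⟨dec g, fun u S hu hS => ?_⟩
  obtain ⟨S', hS', h1⟩ := cov_sound _ [0, 1, 2, 3, 4] (by decide) _ _ he.1 S (by
    intro i _; fin_cases i <;> simp) u hS
  obtain ⟨m, hm, rfl⟩ := List.mem_map.1 hS'
  have h2 := he.2 m hm
  rw [chkMove] at h2
  have h3 : prev.getD m.2.1 4294967295 &&& apps m.2.2 (D ||| smc m.1 [0, 1, 2, 3, 4] (1 <<< g)) =
    prev.getD m.2.1 4294967295 := by simpa using h2
  have h4 : Qry s (MS (prev.getD m.2.1 4294967295)) := by
    by_cases hlt : m.2.1 < prev.length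
    · rw [List.getD_eq_getElem _ _ hlt]
      exact hp _ (List.getElem_mem hlt)
    · rw [List.getD_eq_default _ _ (not_lt.1 hlt), MS_full]
      exact qry_univ s
  have h5 := qry_apps s _ _ (h4.mono (MS_mono h3))
  refine h5.mono ?_
  rw [MS_or]
  refine Set.union_subset_union_right _ ?_
  intro x hx
  have h6 := smc_sound m.1 (dec g) [0, 1, 2, 3, 4] (by decide) (1 <<< g) (by
    rintro x ⟨m', hm', hD, rfl⟩ i _
    have : m' = g := by
      rw [Nat.testBit_shiftLeft] at hD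
      simp only [Bool.and_eq_true, decide_eq_true_eq] at hD
      have h7 := hD.2
      have h8 := Nat.testBit_one_eq_true_iff_self_eq_zero.1 h7
      omega
    rw [this]) x hx
  intro i hi
  rw [h6 i (h1 i (Or.inr hi)), hu i hi]

lemma chk_sound : ∀ (ts : List (List (ℕ × ℕ × List (ℕ × ℕ × List ℕ)))) (prev : List ℕ) (s : ℕ),
    (∀ D ∈ prev, Qry s (MS D)) → (∀ t ∈ ts, ∀ e ∈ t, e.2.1 < 32) → chk prev ts = true →
    Qry (s + ts.length) (∅ : Set (Fin 5 → Bool)) := by
  intro ts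
  induction ts with
  | nil =>
    intro prev s hp _ h
    rw [chk, List.any_eq_true] at h
    obtain ⟨D, hD, h1⟩ := h
    have h2 : D = 0 := by simpa using h1
    have := hp D hD
    rwa [h2, MS_zero] at this
  | cons t ts ih =>
    intro prev s hp hg h
    rw [chk, Bool.and_eq_true, List.all_eq_true] at h
    have := ih (t.map Prod.fst) (s + 1) (by
      intro D hD
      obtain ⟨e, he, rfl⟩ := List.mem_map.1 hD
      exact chkPos_sound hp (hg t (by simp) e he) (h.1 e he)) (fun t' ht' => hg t' (by simp [ht'])) h.2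
    rw [List.length_cons]
    convert this using 1
    omega

/-- **Eleven rounds are enough on the 5-cube.** -/
theorem qry_five : Qry 11 (∅ : Set (Fin 5 → Bool)) := by
  have h1 : chk [] [lev1, lev2, lev3, lev4, lev5, lev6, lev7, lev8, lev9, lev10, lev11] = true := by
    decide +kernel
  have h2 : ∀ t ∈ [lev1, lev2, lev3, lev4, lev5, lev6, lev7, lev8, lev9, lev10, lev11],
      ∀ e ∈ t, e.2.1 < 32 := by decide +kernel
  exact chk_sound _ [] 0 (by simp) h2 h1

end Check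

end Pool.Agent.U426.Piv
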