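import Pool.Agent.U426.PivRule
import Pool.Agent.U426.PivFive
set_option autoImplicit false

/-!
# The number of moves on the `n`-cube
-/

namespace Pool.Agent.U426.Piv

lemma solv_step {m t : ℕ} (h : Solv (Fin m) t) : Solv (Fin (5 + m)) (11 * (t + 6) - 1) := by
  have h1 := Solv.prod (κ := Fin 5) h qry_five
  rw [Fintype.card_fin, show t + 5 + 1 = t + 6 by ring] at h1
  exact h1.equiv finSumFinEquiv.symm

lemma solv_all (r j : ℕ) :
    ∃ t, Solv (Fin (5 * j + r)) t ∧ 2 * (t + 1) + 11 ≤ 11 ^ j * (2 * 2 ^ r + 11) := by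
  induction j with
  | zero =>
    refine ⟨2 ^ r - 1, ?_, ?_⟩
    · rw [show 5 * 0 + r = r by ring]
      exact solv_trivial r
    · have : 0 < 2 ^ r := by positivity
      rw [Nat.sub_add_cancel this]
      simp
  | succ j ih =>
    obtain ⟨t, h1, h2⟩ := ih
    refine ⟨11 * (t + 6) - 1, ?_, ?_⟩
    · rw [show 5 * (j + 1) + r = 5 + (5 * j + r) by ring]
      exact solv_step h1
    · rw [Nat.sub_add_cancel (by omega), pow_succ]
      calc 2 * (11 * (t + 6)) + 11 = 11 * (2 * (t + 1) + 11) := by ring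
        _ ≤ 11 * (11 ^ j * (2 * 2 ^ r + 11)) := Nat.mul_le_mul_left _ h2
        _ = 11 ^ j * 11 * (2 * 2 ^ r + 11) := by ring

theorem solv_bound (n : ℕ) : ∃ t, Solv (Fin n) t ∧ (t + 1) ^ 5 ≤ 7 ^ 5 * 11 ^ n := by
  obtain ⟨t, h1, h2⟩ := solv_all (n % 5) (n / 5)
  rw [Nat.div_add_mod] at h1
  refine ⟨t, h1, ?_⟩
  have h3 : (2 * 2 ^ (n % 5) + 11) ^ 5 ≤ 14 ^ 5 * 11 ^ (n % 5) := by
    have : n % 5 < 5 := Nat.mod_lt _ (by norm_num)
    interval_cases n % 5 <;> norm_num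
  have h4 : (2 * (t + 1)) ^ 5 ≤ 14 ^ 5 * 11 ^ n := by
    calc (2 * (t + 1)) ^ 5 ≤ (11 ^ (n / 5) * (2 * 2 ^ (n % 5) + 11)) ^ 5 :=
          Nat.pow_le_pow_left (by omega) 5
      _ = 11 ^ (5 * (n / 5)) * (2 * 2 ^ (n % 5) + 11) ^ 5 := by
          rw [mul_pow, ← pow_mul, mul_comm (n / 5) 5]
      _ ≤ 11 ^ (5 * (n / 5)) * (14 ^ 5 * 11 ^ (n % 5)) := Nat.mul_le_mul_left _ h3
      _ = 14 ^ 5 * 11 ^ (5 * (n / 5) + n % 5) := by rw [pow_add]; ring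
      _ = 14 ^ 5 * 11 ^ n := by rw [Nat.div_add_mod]
  have h5 : (2 * (t + 1)) ^ 5 = 2 ^ 5 * (t + 1) ^ 5 := by rw [mul_pow]
  rw [h5, show (14 : ℕ) ^ 5 = 2 ^ 5 * 7 ^ 5 by norm_num, mul_assoc] at h4
  exact Nat.le_of_mul_le_mul_left h4 (by norm_num)

end Pool.Agent.U426.Piv
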