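import Mathlib
set_option autoImplicit false

/-!
# The dead-set game of a path-following pivot rule on an abstract cube

A position is a pair `(D, w)`: `D` is a set of vertices of the cube of which it is known that their values
are below the value of the current vertex `w`. The adversary names the set `S` of improving directions at
`w`; the face through `w` spanned by `S` has no vertex in `D`. Then the face through `w` spanned by the
other directions is added to `D`, and the rule moves along a direction of `S`.

`Win t D w`: the rule can reach the end (`S = ∅`) with at most `t` moves.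

The main step is `travel`: on a product of an outer and an inner cube the rule can reach, within
`t + dist u g` moves, a vertex without improving inner directions and without improving outer directions
towards the outer vertex `g`, where `t` is the number of moves that are enough on the inner cube. So a
path-following rule can evaluate the fibres of the outer cube in an order of its own choice, `Qry`.
-/

namespace Pool.Agent.U426.Piv

open Finset

section Game

variable {ι : Type} [DecidableEq ι]

/-- the neighbour of `x` in direction `i` -/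
def flip (x : ι → Bool) (i : ι) : ι → Bool := Function.update x i (!x i)

lemma flip_self (x : ι → Bool) (i : ι) : flip x i i = !x i := by simp [flip]

lemma flip_of_ne (x : ι → Bool) {i j : ι} (h : j ≠ i) : flip x i j = x j := by simp [flip, h]

lemma flip_flip (x : ι → Bool) (i : ι) : flip (flip x i) i = x := by
  funext j
  by_cases h : j = i
  · subst h; simp [flip_self]
  · rw [flip_of_ne _ h, flip_of_ne _ h]

/-- no vertex of the face through `w` spanned by `S` is in `D` -/
def Legal (D : Set (ι → Bool)) (w : ι → Bool) (S : Finset ι) : Prop :=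
  ∀ x : ι → Bool, (∀ i, i ∉ S → x i = w i) → x ∉ D

/-- the face through `w` spanned by the directions outside `S` -/
def down (w : ι → Bool) (S : Finset ι) : Set (ι → Bool) := {x | ∀ i ∈ S, x i = w i}

/-- the rule can reach the end with at most `t` moves -/
def Win : ℕ → Set (ι → Bool) → (ι → Bool) → Prop
  | 0, D, w => ∀ S : Finset ι, Legal D w S → S = ∅
  | t + 1, D, w => ∀ S : Finset ι, Legal D w S →
      S = ∅ ∨ ∃ a ∈ S, Win t (D ∪ down w S) (flip w a)

/-- the rule can reach the end with at most `t` moves when it has seen `S` at `w` -/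
def Go (t : ℕ) (D : Set (ι → Bool)) (w : ι → Bool) (S : Finset ι) : Prop :=
  S = ∅ ∨ ∃ s, s + 1 = t ∧ ∃ a ∈ S, Win s (D ∪ down w S) (flip w a)

omit [DecidableEq ι] in
lemma Legal.mono {D D' : Set (ι → Bool)} {w : ι → Bool} {S : Finset ι} (h : Legal D' w S)
    (hD : D ⊆ D') : Legal D w S := fun x hx hxD => h x hx (hD hxD)

lemma win_iff {t : ℕ} {D : Set (ι → Bool)} {w : ι → Bool} :
    Win t D w ↔ ∀ S, Legal D w S → Go t D w S := by
  cases t with
  | zero => simp [Win, Go]
  | succ t => simp [Win, Go]

lemma Win.mono : ∀ {t : ℕ} {D D' : Set (ι → Bool)} {w : ι → Bool}, Win t D w → D ⊆ D' → Win t D' w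
  | 0, _, _, _, h, hD => fun S hS => h S (hS.mono hD)
  | t + 1, _, _, _, h, hD => fun S hS => by
      rcases h S (hS.mono hD) with h1 | ⟨a, ha, h1⟩
      · exact Or.inl h1
      · exact Or.inr ⟨a, ha, h1.mono (Set.union_subset_union_left _ hD)⟩

lemma Win.succ : ∀ {t : ℕ} {D : Set (ι → Bool)} {w : ι → Bool}, Win t D w → Win (t + 1) D w
  | 0, _, _, h => fun S hS => Or.inl (h S hS)
  | t + 1, _, _, h => fun S hS => by
      rcases h S hS with h1 | ⟨a, ha, h1⟩
      · exact Or.inl h1
      · exact Or.inr ⟨a, ha, h1.succ⟩

lemma Win.le {t t' : ℕ} {D : Set (ι → Bool)} {w : ι → Bool} (h : Win t D w) (ht : t ≤ t') :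
    Win t' D w := by
  induction t', ht using Nat.le_induction with
  | base => exact h
  | succ n _ ih => exact ih.succ

lemma Go.le {t t' : ℕ} {D : Set (ι → Bool)} {w : ι → Bool} {S : Finset ι} (h : Go t D w S)
    (ht : t ≤ t') : Go t' D w S := by
  rcases h with h | ⟨s, hs, a, ha, h⟩
  · exact Or.inl h
  · exact Or.inr ⟨t' - 1, by omega, a, ha, h.le (by omega)⟩

/-- `t` moves are enough on the cube with directions `ι`, from every vertex -/
def Solv (ι : Type) [DecidableEq ι] (t : ℕ) : Prop := ∀ w : ι → Bool, Win t ∅ w

/-- every move kills a vertex -/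
lemma win_trivial : ∀ (t : ℕ) (D : Set (ι → Bool)) (w : ι → Bool) (A : Finset (ι → Bool)),
    (∀ x, x ∉ D → x ∈ A) → A.card ≤ t + 1 → Win t D w := by
  classical
  intro t
  induction t with
  | zero =>
    intro D w A hA hc S hS
    by_contra h
    obtain ⟨a, ha⟩ := Finset.nonempty_iff_ne_empty.2 h
    have h1 : w ∈ A := hA w (hS w fun _ _ => rfl)
    have h2 : flip w a ∈ A := hA _ (hS _ fun i hi => flip_of_ne _ (by rintro rfl; exact hi ha))
    have h3 : w ≠ flip w a := by
      intro h4
      have := congrFun h4 a
      rw [flip_self] at this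
      simp at this
    have h5 := Finset.card_le_one.1 (by simpa using hc) _ h1 _ h2
    exact h3 h5
  | succ t ih =>
    intro D w A hA hc S hS
    by_cases h : S = ∅
    · exact Or.inl h
    obtain ⟨a, ha⟩ := Finset.nonempty_iff_ne_empty.2 h
    have h1 : w ∈ A := hA w (hS w fun _ _ => rfl)
    refine Or.inr ⟨a, ha, ih _ _ (A.erase w) ?_ ?_⟩
    · intro x hx
      rw [Set.mem_union, not_or] at hx
      refine Finset.mem_erase.2 ⟨?_, hA x hx.1⟩
      rintro rfl
      exact hx.2 fun _ _ => rfl
    · rw [Finset.card_erase_of_mem h1]; omega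

lemma solv_trivial (r : ℕ) : Solv (Fin r) (2 ^ r - 1) := by
  intro w
  refine win_trivial _ _ _ Finset.univ (fun x _ => Finset.mem_univ x) ?_
  have : 0 < 2 ^ r := by positivity
  rw [Finset.card_univ, Fintype.card_fun, Fintype.card_bool, Fintype.card_fin]
  omega

end Game

section Equiv

variable {ι ι' : Type} [DecidableEq ι] [DecidableEq ι']

lemma win_equiv (e : ι ≃ ι') : ∀ (t : ℕ) (D : Set (ι' → Bool)) (w : ι' → Bool), Win t D w →
    Win t {x : ι → Bool | x ∘ e.symm ∈ D} (w ∘ e) := by
  have hleg : ∀ (D : Set (ι' → Bool)) (w : ι' → Bool) (S : Finset ι),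
      Legal {x : ι → Bool | x ∘ e.symm ∈ D} (w ∘ e) S → Legal D w (S.map e.toEmbedding) := by
    intro D w S h x hx hxD
    refine h (x ∘ e) ?_ ?_
    · intro i hi
      refine hx (e i) ?_
      simpa using hi
    · simpa [Function.comp_assoc] using hxD
  intro t
  induction t with
  | zero =>
    intro D w h S hS
    have := h _ (hleg D w S hS)
    simpa using this
  | succ t ih =>
    intro D w h S hS
    rcases h _ (hleg D w S hS) with h1 | ⟨a, ha, h1⟩
    · left; simpa using h1
    · right
      obtain ⟨b, hb, rfl⟩ := Finset.mem_map.1 ha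
      refine ⟨b, hb, ?_⟩
      have h2 := ih _ _ h1
      have e1 : (flip w (e.toEmbedding b)) ∘ e = flip (w ∘ e) b := by
        funext i
        by_cases hi : i = b
        · subst hi; simp [flip_self]
        · rw [flip_of_ne _ hi]
          simp only [Function.comp]
          rw [flip_of_ne]
          simpa using hi
      rw [e1] at h2
      refine h2.mono ?_
      rintro x (hx | hx)
      · exact Or.inl hx
      · right
        intro i hi
        have := hx (e i) (by simpa using hi)
        simpa using this

lemma Solv.equiv {t : ℕ} (h : Solv ι' t) (e : ι ≃ ι') : Solv ι t := by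
  intro w
  have h1 := win_equiv e t ∅ (w ∘ e.symm) (h _)
  have e1 : (w ∘ e.symm) ∘ e = w := by funext i; simp
  rw [e1] at h1
  exact h1.mono (by rintro x hx; exact hx)

end Equiv

section Product

variable {κ μ : Type} [DecidableEq κ] [Fintype κ] [DecidableEq μ]

omit [Fintype κ] in
lemma flip_inl (u : κ → Bool) (x : μ → Bool) (j : κ) :
    flip (Sum.elim u x) (Sum.inl j) = Sum.elim (flip u j) x := by
  unfold flip
  rw [Sum.elim_inl, Sum.update_elim_inl]

omit [Fintype κ] in
lemma flip_inr (u : κ → Bool) (x : μ → Bool) (i : μ) :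
    flip (Sum.elim u x) (Sum.inr i) = Sum.elim u (flip x i) := by
  unfold flip
  rw [Sum.elim_inr, Sum.update_elim_inr]

/-- **Travelling to a fibre.** -/
theorem travel (g : κ → Bool) (s : ℕ) (D₀ : Set (κ ⊕ μ → Bool))
    (H : ∀ (D : Set (κ ⊕ μ → Bool)) (u : κ → Bool) (x : μ → Bool) (S : Finset (κ ⊕ μ)),
      D₀ ⊆ D → Legal D (Sum.elim u x) S → (∀ i : μ, Sum.inr i ∉ S) →
      (∀ j : κ, Sum.inl j ∈ S → u j = g j) → Go s D (Sum.elim u x) S) :
    ∀ (n c t : ℕ), c + t = n → ∀ (D : Set (κ ⊕ μ → Bool)) (u : κ → Bool) (x : μ → Bool)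
      (Dm : Set (μ → Bool)), D₀ ⊆ D → (univ.filter fun j => u j ≠ g j).card ≤ c →
      Win t Dm x →
      (∀ (u' : κ → Bool) (x' : μ → Bool), (∀ j, u j = g j → u' j = u j) → x' ∈ Dm →
        Sum.elim u' x' ∈ D) → Win (n + s) D (Sum.elim u x) := by
  intro n
  induction n using Nat.strong_induction_on with
  | _ n ih =>
  intro c t hn D u x Dm h0 hc ht hinv
  rw [win_iff]
  intro S hS
  by_cases h1 : ∃ j : κ, Sum.inl j ∈ S ∧ u j ≠ g j
  · -- an outer move towards `g`
    obtain ⟨j, hj, hjg⟩ := h1
    have hlt : (univ.filter fun i => flip u j i ≠ g i).card < (univ.filter fun i => u i ≠ g i).card := by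
      apply Finset.card_lt_card
      rw [Finset.ssubset_iff_subset_ne]
      refine ⟨fun i hi => ?_, fun h => ?_⟩
      · rw [mem_filter] at hi ⊢
        refine ⟨mem_univ _, ?_⟩
        by_cases hij : i = j
        · rw [hij]; exact hjg
        · have := hi.2
          rwa [flip_of_ne _ hij] at this
      · have h2 : j ∈ univ.filter fun i => u i ≠ g i := by simp [hjg]
        rw [← h] at h2
        rw [mem_filter, flip_self] at h2
        have h3 := h2.2
        cases hu : u j <;> cases hg : g j <;> simp_all
    have h2 := ih (c - 1 + t) (by omega) (c - 1) t rfl (D ∪ down (Sum.elim u x) S) (flip u j) x Dm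
      (h0.trans Set.subset_union_left) (by omega) ht (by
        intro u' x' hu' hx'
        left
        refine hinv u' x' (fun i hi => ?_) hx'
        have hij : i ≠ j := by rintro rfl; exact hjg hi
        have h3 := hu' i (by rw [flip_of_ne _ hij]; exact hi)
        rwa [flip_of_ne _ hij] at h3)
    right
    refine ⟨n + s - 1, by omega, Sum.inl j, hj, ?_⟩
    rw [flip_inl]
    exact h2.le (by omega)
  · push Not at h1
    have hleg : Legal Dm x S.toRight := by
      intro x' hx' hD
      refine hS (Sum.elim u x') ?_ (hinv u x' (fun _ _ => rfl) hD)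
      rintro (j | i) hi
      · rfl
      · exact hx' i (by simpa using hi)
    rcases win_iff.1 ht _ hleg with h2 | ⟨t', ht', i, hi, h2⟩
    · have h3 := H D u x S h0 hS (fun i hi => by
        have : i ∈ S.toRight := by simpa using hi
        rw [h2] at this
        simp at this) h1
      exact h3.le (by omega)
    · rw [Finset.mem_toRight] at hi
      have h3 := ih (c + t') (by omega) c t' rfl (D ∪ down (Sum.elim u x) S) u (flip x i)
        (Dm ∪ down x S.toRight) (h0.trans Set.subset_union_left) hc h2 (by
          rintro u' x' hu' (hx' | hx')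
          · exact Or.inl (hinv u' x' hu' hx')
          · right
            rintro (j | i') hi'
            · exact hu' j (h1 j hi')
            · exact hx' i' (by simpa using hi'))
      right
      refine ⟨n + s - 1, by omega, Sum.inr i, hi, ?_⟩
      rw [flip_inr]
      exact h3.le (by omega)

/-- the game of the fibres: the rule names a vertex `g`, the adversary a face `{x = g on S}` such that a
face with the directions `S` has no vertex in `E`; it is added to `E`; at most `s` rounds -/
def Qry : ℕ → Set (κ → Bool) → Prop
  | 0, E => ∀ u, u ∈ E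
  | s + 1, E => ∃ g : κ → Bool, ∀ (u : κ → Bool) (S : Finset κ), (∀ j ∈ S, u j = g j) →
      Legal E u S → Qry s (E ∪ down u S)

omit [Fintype κ] [DecidableEq κ] in
lemma Qry.mono : ∀ {s : ℕ} {E E' : Set (κ → Bool)}, Qry s E → E ⊆ E' → Qry s E'
  | 0, _, _, h, hE => fun u => hE (h u)
  | s + 1, _, _, h, hE => by
      obtain ⟨g, hg⟩ := h
      exact ⟨g, fun u S hu hS => (hg u S hu (hS.mono hE)).mono (Set.union_subset_union_left _ hE)⟩

theorem win_of_qry {t : ℕ} (ht : Solv μ t) : ∀ (s : ℕ) (E : Set (κ → Bool)), Qry s E →
    ∀ (D : Set (κ ⊕ μ → Bool)) (w : κ ⊕ μ → Bool), (∀ u x, u ∈ E → Sum.elim u x ∈ D) →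
    Win (s * (t + Fintype.card κ + 1) - 1) D w := by
  intro s
  induction s with
  | zero =>
    intro E hE D w hD
    rw [win_iff]
    intro S hS
    exfalso
    have h1 := hD (w ∘ Sum.inl) (w ∘ Sum.inr) (hE _)
    rw [Sum.elim_comp_inl_inr] at h1
    exact hS w (fun _ _ => rfl) h1
  | succ s ih =>
    intro E hE D w hD
    obtain ⟨g, hg⟩ := hE
    have h1 := travel g (s * (t + Fintype.card κ + 1)) D (by
      intro D' u x S hDD' hS hS1 hS2
      have hmem : ∀ j, j ∈ S.toLeft ↔ Sum.inl j ∈ S := fun j => Finset.mem_toLeft
      have hleg : Legal E u S.toLeft := by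
        intro u' hu' hE'
        refine hS (Sum.elim u' x) ?_ (hDD' (hD u' x hE'))
        rintro (j | i) hi
        · exact hu' j (by rwa [hmem])
        · rfl
      have hq := hg u S.toLeft (fun j hj => hS2 j ((hmem j).1 hj)) hleg
      by_cases hSe : S = ∅
      · exact Or.inl hSe
      obtain ⟨a, ha⟩ := Finset.nonempty_iff_ne_empty.2 hSe
      have hs : s ≠ 0 := by
        rintro rfl
        rcases a with j | i
        · rcases hq (flip u j) with h2 | h2
          · exact hleg _ (fun i hi => flip_of_ne _ (by rintro rfl; exact hi ((hmem _).2 ha))) h2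
          · have h3 := h2 j ((hmem _).2 ha)
            rw [flip_self] at h3
            simp at h3
        · exact hS1 i ha
      right
      have hpos : 0 < s * (t + Fintype.card κ + 1) := by positivity
      refine ⟨s * (t + Fintype.card κ + 1) - 1, by omega, a, ha, ?_⟩
      refine ih _ hq _ _ ?_
      rintro u' x' (hu' | hu')
      · exact Or.inl (hDD' (hD u' x' hu'))
      · right
        rintro (j | i) hi
        · exact hu' j ((hmem j).2 hi)
        · exact absurd hi (hS1 i))
      (Fintype.card κ + t) (Fintype.card κ) t rfl D (w ∘ Sum.inl) (w ∘ Sum.inr) ∅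
      subset_rfl (Finset.card_le_univ _) (ht _) (by simp)
    rw [Sum.elim_comp_inl_inr] at h1
    refine h1.le ?_
    have : (s + 1) * (t + Fintype.card κ + 1) = s * (t + Fintype.card κ + 1) + (t + Fintype.card κ + 1) := by
      ring
    omega

/-- **Product theorem.** -/
theorem Solv.prod {t s : ℕ} (ht : Solv μ t) (hs : Qry s (∅ : Set (κ → Bool))) :
    Solv (κ ⊕ μ) (s * (t + Fintype.card κ + 1) - 1) :=
  fun w => win_of_qry ht s ∅ hs ∅ w (by simp)

end Product

end Pool.Agent.U426.Piv
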