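import Pool.Agent.U426.PivGame
set_option autoImplicit false

/-!
# From the dead-set game to a pivot rule on abstract cubes
-/

namespace Pool.Agent.U426.Piv

open Finset

variable {n : ℕ}

/-- the improving directions at `x` -/
noncomputable def improving (f : (Fin n → Bool) → ℝ) (x : Fin n → Bool) : Finset (Fin n) :=
  univ.filter fun i => f x < f (flip x i)

/-- on every face `f` has exactly one local maximum -/
def AOF (f : (Fin n → Bool) → ℝ) : Prop :=
  ∀ (F : Finset (Fin n)) (x : Fin n → Bool), ∃! y : Fin n → Bool,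
    (∀ i, i ∉ F → y i = x i) ∧ ∀ i ∈ F, f (flip y i) < f y

lemma mem_improving {f : (Fin n → Bool) → ℝ} {x : Fin n → Bool} {i : Fin n} :
    i ∈ improving f x ↔ f x < f (flip x i) := by simp [improving]

lemma eq_or_flip {x y : Fin n → Bool} {i : Fin n} (h : ∀ j, j ≠ i → y j = x j) :
    y = x ∨ y = flip x i := by
  by_cases hi : y i = x i
  · left
    funext j
    by_cases hj : j = i
    · rw [hj, hi]
    · exact h j hj
  · right
    funext j
    by_cases hj : j = i
    · subst hj
      rw [flip_self]
      cases hx : x j <;> cases hy : y j <;> simp_all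
    · rw [flip_of_ne _ hj]; exact h j hj

lemma AOF.ne {f : (Fin n → Bool) → ℝ} (hf : AOF f) (x : Fin n → Bool) (i : Fin n) :
    f (flip x i) ≠ f x := by
  obtain ⟨y, ⟨h1, h2⟩, -⟩ := hf {i} x
  have h3 := h2 i (mem_singleton_self i)
  rcases eq_or_flip (x := x) (y := y) (i := i) (fun j hj => h1 j (by simpa using hj)) with h4 | h4
  · subst h4; exact h3.ne
  · subst h4
    rw [flip_flip] at h3
    exact h3.ne'

lemma bool_eq {a b c : Bool} (h1 : a ≠ c) (h2 : b ≠ c) : a = b := by
  cases a <;> cases b <;> cases c <;> simp_all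

lemma bool_not {a b : Bool} (h1 : a ≠ b) : a = !b := by
  cases a <;> cases b <;> simp_all

/-- every pattern of improving directions occurs exactly once on a face -/
lemma AOF.pattern {f : (Fin n → Bool) → ℝ} (hf : AOF f) (A : Finset (Fin n)) :
    ∀ F : Finset (Fin n), A ⊆ F → ∀ x : Fin n → Bool, ∃! y : Fin n → Bool,
      (∀ i, i ∉ F → y i = x i) ∧
        ∀ i ∈ F, (i ∈ A → f y < f (flip y i)) ∧ (i ∉ A → f (flip y i) < f y) := by
  induction A using Finset.induction_on with
  | empty =>
    intro F _ x
    obtain ⟨y, ⟨h1, h2⟩, h3⟩ := hf F x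
    refine ⟨y, ⟨h1, fun i hi => ⟨fun h => absurd h (by simp), fun _ => h2 i hi⟩⟩, ?_⟩
    rintro z ⟨hz1, hz2⟩
    exact h3 z ⟨hz1, fun i hi => (hz2 i hi).2 (by simp)⟩
  | insert a A ha ih =>
    intro F hF x
    have haF : a ∈ F := hF (mem_insert_self _ _)
    have hAF : A ⊆ F := (subset_insert _ _).trans hF
    have hAF' : A ⊆ F.erase a := fun i hi =>
      mem_erase.2 ⟨by rintro rfl; exact ha hi, hAF hi⟩
    -- the pattern on the smaller face
    have hres : ∀ (B : Finset (Fin n)) (z : Fin n → Bool), (B = A ∨ B = insert a A) →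
        (∀ i ∈ F, (i ∈ B → f z < f (flip z i)) ∧ (i ∉ B → f (flip z i) < f z)) →
        ∀ i ∈ F.erase a, (i ∈ A → f z < f (flip z i)) ∧ (i ∉ A → f (flip z i) < f z) := by
      intro B z hB hz i hi
      have hi' := mem_erase.1 hi
      rcases hB with rfl | rfl
      · exact hz i hi'.2
      · refine ⟨fun h => (hz i hi'.2).1 (mem_insert_of_mem h), fun h => (hz i hi'.2).2 ?_⟩
        rw [mem_insert, not_or]
        exact ⟨hi'.1, h⟩
    have huniq : ∀ z z' : Fin n → Bool, (∀ i, i ∉ F → z i = x i) → (∀ i, i ∉ F → z' i = x i) →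
        (∀ i ∈ F.erase a, (i ∈ A → f z < f (flip z i)) ∧ (i ∉ A → f (flip z i) < f z)) →
        (∀ i ∈ F.erase a, (i ∈ A → f z' < f (flip z' i)) ∧ (i ∉ A → f (flip z' i) < f z')) →
        z a = z' a → z = z' := by
      intro z z' hz hz' h1 h2 h3
      refine (ih (F.erase a) hAF' z).unique ⟨fun i _ => rfl, h1⟩ ⟨fun i hi => ?_, h2⟩
      by_cases hia : i = a
      · rw [hia, h3]
      · have : i ∉ F := fun h => hi (mem_erase.2 ⟨hia, h⟩)
        rw [hz i this, hz' i this]
    obtain ⟨y, ⟨hy1, hy2⟩, hy3⟩ := ih F hAF x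
    refine ⟨?_, ?_⟩ <;> skip
    · exact if f (ih (F.erase a) hAF' x).choose < f (flip (ih (F.erase a) hAF' x).choose a) then
        (ih (F.erase a) hAF' x).choose else (ih (F.erase a) hAF' (flip x a)).choose
    · obtain ⟨⟨p1, p2⟩, -⟩ := (ih (F.erase a) hAF' x).choose_spec
      obtain ⟨⟨q1, q2⟩, -⟩ := (ih (F.erase a) hAF' (flip x a)).choose_spec
      set y0 := (ih (F.erase a) hAF' x).choose
      set y1 := (ih (F.erase a) hAF' (flip x a)).choose
      have p0 : y0 a = x a := p1 a (by simp)
      have q0 : y1 a = !x a := by rw [q1 a (by simp), flip_self]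
      have p1' : ∀ i, i ∉ F → y0 i = x i := fun i hi => p1 i fun h => hi (mem_erase.1 h).2
      have q1' : ∀ i, i ∉ F → y1 i = x i := fun i hi => by
        rw [q1 i fun h => hi (mem_erase.1 h).2, flip_of_ne]
        rintro rfl; exact hi haF
      have hext : ∀ z : Fin n → Bool, f z < f (flip z a) →
          (∀ i ∈ F.erase a, (i ∈ A → f z < f (flip z i)) ∧ (i ∉ A → f (flip z i) < f z)) →
          ∀ i ∈ F, (i ∈ insert a A → f z < f (flip z i)) ∧ (i ∉ insert a A → f (flip z i) < f z) := by
        intro z hz h i hi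
        by_cases hia : i = a
        · subst hia
          exact ⟨fun _ => hz, fun h' => absurd (mem_insert_self _ _) h'⟩
        · have h1 := h i (mem_erase.2 ⟨hia, hi⟩)
          refine ⟨fun h' => h1.1 ?_, fun h' => h1.2 fun h'' => h' (mem_insert_of_mem h'')⟩
          exact (mem_insert.1 h').resolve_left hia
      have hext' : ∀ z : Fin n → Bool, ¬ f z < f (flip z a) →
          (∀ i ∈ F.erase a, (i ∈ A → f z < f (flip z i)) ∧ (i ∉ A → f (flip z i) < f z)) →
          ∀ i ∈ F, (i ∈ A → f z < f (flip z i)) ∧ (i ∉ A → f (flip z i) < f z) := by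
        intro z hz h i hi
        by_cases hia : i = a
        · subst hia
          exact ⟨fun h' => absurd h' ha, fun _ => lt_of_le_of_ne (not_lt.1 hz) (hf.ne z _)⟩
        · exact h i (mem_erase.2 ⟨hia, hi⟩)
      dsimp only
      constructor
      · by_cases h : f y0 < f (flip y0 a)
        · rw [if_pos h]
          exact ⟨p1', hext y0 h p2⟩
        · rw [if_neg h]
          refine ⟨q1', hext y1 ?_ q2⟩
          by_contra h'
          have e0 := hy3 y0 ⟨p1', hext' y0 h p2⟩
          have e1 := hy3 y1 ⟨q1', hext' y1 h' q2⟩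
          rw [e0] at p0
          rw [e1] at q0
          rw [p0] at q0
          simp at q0
      · rintro z ⟨hz1, hz2⟩
        have hza : f z < f (flip z a) := (hz2 a haF).1 (mem_insert_self _ _)
        have hz3 := hres _ z (Or.inr rfl) hz2
        have hy4 := hres _ y (Or.inl rfl) hy2
        have hya : f (flip y a) < f y := (hy2 a haF).2 ha
        have hzy : z a ≠ y a := by
          intro h
          have := huniq z y hz1 hy1 hz3 hy4 h
          subst this
          exact lt_asymm hya hza
        by_cases h : f y0 < f (flip y0 a)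
        · rw [if_pos h]
          have h0y : y0 a ≠ y a := by
            intro h'
            have := huniq y0 y p1' hy1 p2 hy4 h'
            rw [this] at h
            exact lt_asymm hya h
          exact huniq z y0 hz1 p1' hz3 p2 (bool_eq hzy h0y)
        · rw [if_neg h]
          have e0 := hy3 y0 ⟨p1', hext' y0 h p2⟩
          refine huniq z y1 hz1 q1' hz3 q2 ?_
          rw [← e0, p0] at hzy
          rw [q0]
          exact bool_not hzy

lemma AOF.le_of_down {f : (Fin n → Bool) → ℝ} (hf : AOF f) {w x : Fin n → Bool}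
    (hx : x ∈ down w (improving f w)) : f x ≤ f w := by
  classical
  set S := improving f w with hS
  obtain ⟨m, hm1, hm2⟩ := Finset.exists_max_image
    (univ.filter fun x : Fin n → Bool => ∀ i ∈ S, x i = w i) f ⟨w, by simp⟩
  simp only [mem_filter, mem_univ, true_and] at hm1 hm2
  have h1 : m = w := by
    refine (hf (univ \ S) w).unique ⟨fun i hi => hm1 i (by simpa using hi), fun i hi => ?_⟩
      ⟨fun i _ => rfl, fun i hi => ?_⟩
    · have hi' : i ∉ S := by simpa using hi
      refine lt_of_le_of_ne (hm2 _ fun j hj => ?_) (hf.ne m i)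
      rw [flip_of_ne _ (by rintro rfl; exact hi' hj)]
      exact hm1 j hj
    · have hi' : i ∉ S := by simpa using hi
      rw [hS, mem_improving, not_lt] at hi'
      exact lt_of_le_of_ne hi' (hf.ne w i)
  have := hm2 x hx
  rwa [h1] at this

lemma AOF.le_of_up {f : (Fin n → Bool) → ℝ} (hf : AOF f) {w x : Fin n → Bool}
    (hx : ∀ i, i ∉ improving f w → x i = w i) : f w ≤ f x := by
  classical
  set S := improving f w with hS
  obtain ⟨m, hm1, hm2⟩ := Finset.exists_min_image
    (univ.filter fun x : Fin n → Bool => ∀ i, i ∉ S → x i = w i) f ⟨w, by simp⟩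
  simp only [mem_filter, mem_univ, true_and] at hm1 hm2
  have h1 : m = w := by
    refine (hf.pattern S S subset_rfl w).unique ⟨hm1, fun i hi => ⟨fun _ => ?_, fun h => absurd hi h⟩⟩
      ⟨fun i _ => rfl, fun i hi => ⟨fun _ => mem_improving.1 hi, fun h => absurd hi h⟩⟩
    refine lt_of_le_of_ne (hm2 _ fun j hj => ?_) (hf.ne m i).symm
    rw [flip_of_ne _ (by rintro rfl; exact hj hi)]
    exact hm1 j hj
  have := hm2 x hx
  rwa [h1] at this

/-- the set of all vertices of which the history shows that they are not above the last vertex -/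
def dead : List ((Fin n → Bool) × Finset (Fin n)) → Set (Fin n → Bool)
  | [] => ∅
  | p :: l => dead l ∪ down p.1 p.2

open Classical in
/-- the rule: choose an improving direction for which the game can be won fastest -/
noncomputable def rule (i₀ : Fin n) : List ((Fin n → Bool) × Finset (Fin n)) → Fin n
  | [] => i₀
  | p :: l =>
    if h : ∃ t, ∃ a ∈ p.2, Win t (dead l ∪ down p.1 p.2) (flip p.1 a) then (Nat.find_spec h).choose
    else if h : p.2.Nonempty then h.choose else i₀

lemma rule_mem (i₀ : Fin n) (x : Fin n → Bool) (S : Finset (Fin n))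
    (l : List ((Fin n → Bool) × Finset (Fin n))) (hS : S.Nonempty) : rule i₀ ((x, S) :: l) ∈ S := by
  classical
  rw [rule]
  split_ifs with h
  · exact (Nat.find_spec h).choose_spec.1
  · exact hS.choose_spec

lemma rule_win (i₀ : Fin n) (x : Fin n → Bool) (S : Finset (Fin n))
    (l : List ((Fin n → Bool) × Finset (Fin n))) {t : ℕ}
    (ht : ∃ a ∈ S, Win t (dead l ∪ down x S) (flip x a)) :
    Win t (dead l ∪ down x S) (flip x (rule i₀ ((x, S) :: l))) := by
  classical
  have h : ∃ t, ∃ a ∈ (x, S).2, Win t (dead l ∪ down (x, S).1 (x, S).2) (flip (x, S).1 a) := ⟨t, ht⟩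
  rw [rule, dif_pos h]
  exact (Nat.find_spec h).choose_spec.2.le (Nat.find_min' h ht)

/-- everything seen along `w 0, …, w t`, the current vertex first -/
noncomputable def seen (f : (Fin n → Bool) → ℝ) (w : ℕ → (Fin n → Bool)) :
    ℕ → List ((Fin n → Bool) × Finset (Fin n))
  | 0 => [(w 0, improving f (w 0))]
  | t + 1 => (w (t + 1), improving f (w (t + 1))) :: seen f w t

/-- everything seen before time `t` -/
noncomputable def before (f : (Fin n → Bool) → ℝ) (w : ℕ → (Fin n → Bool)) :
    ℕ → List ((Fin n → Bool) × Finset (Fin n))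
  | 0 => []
  | t + 1 => seen f w t

lemma seen_eq (f : (Fin n → Bool) → ℝ) (w : ℕ → (Fin n → Bool)) (t : ℕ) :
    seen f w t = (w t, improving f (w t)) :: before f w t := by
  cases t <;> rfl

theorem run (i₀ : Fin n) {T : ℕ} (hT : Solv (Fin n) T) {f : (Fin n → Bool) → ℝ} (hf : AOF f)
    (w : ℕ → (Fin n → Bool)) (hw : ∀ t, (improving f (w t)).Nonempty →
      w (t + 1) = flip (w t) (rule i₀ (seen f w t))) :
    ∃ L, L ≤ T ∧ (∀ t < L, (improving f (w t)).Nonempty) ∧ improving f (w L) = ∅ ∧
      ∀ x, f x ≤ f (w L) := by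
  classical
  have key : ∃ t, t ≤ T ∧ improving f (w t) = ∅ := by
    by_contra hcon
    push Not at hcon
    have hind : ∀ t ≤ T, Win (T - t) (dead (before f w t)) (w t) ∧
        ∀ x ∈ dead (before f w t), f x < f (w t) := by
      intro t
      induction t with
      | zero =>
        intro _
        exact ⟨hT _, fun x hx => absurd hx (by simp [before, dead])⟩
      | succ t ih =>
        intro ht
        obtain ⟨h1, h2⟩ := ih (by omega)
        have hne : (improving f (w t)).Nonempty := hcon t (by omega)
        have hleg : Legal (dead (before f w t)) (w t) (improving f (w t)) := by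
          intro x hx hxD
          exact absurd (h2 x hxD) (not_lt.2 (hf.le_of_up hx))
        obtain ⟨r, hr⟩ : ∃ r, T - t = r + 1 := ⟨T - t - 1, by omega⟩
        rw [hr] at h1
        rcases h1 _ hleg with h3 | h3
        · exact absurd h3 hne.ne_empty
        have h4 := rule_win i₀ _ _ _ h3
        have h5 := rule_mem i₀ (w t) (improving f (w t)) (before f w t) hne
        rw [← seen_eq] at h4 h5
        have h6 : f (w t) < f (w (t + 1)) := by
          rw [hw t hne]; exact mem_improving.1 h5
        have h7 : dead (before f w (t + 1)) = dead (before f w t) ∪ down (w t) (improving f (w t)) := by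
          show dead (seen f w t) = _
          rw [seen_eq]; rfl
        rw [h7]
        constructor
        · rw [hw t hne, show T - (t + 1) = r by omega]
          exact h4
        · rintro x (hx | hx)
          · exact (h2 x hx).trans h6
          · exact (hf.le_of_down hx).trans_lt h6
    obtain ⟨h1, h2⟩ := hind T le_rfl
    rw [Nat.sub_self] at h1
    have hleg : Legal (dead (before f w T)) (w T) (improving f (w T)) := by
      intro x hx hxD
      exact absurd (h2 x hxD) (not_lt.2 (hf.le_of_up hx))
    exact (hcon T le_rfl).ne_empty (h1 _ hleg)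
  have hex : ∃ t, improving f (w t) = ∅ := by
    obtain ⟨t, _, h⟩ := key; exact ⟨t, h⟩
  obtain ⟨t, ht, h⟩ := key
  refine ⟨Nat.find hex, (Nat.find_min' hex h).trans ht, fun s hs => ?_, Nat.find_spec hex, fun x => ?_⟩
  · exact Finset.nonempty_iff_ne_empty.2 (Nat.find_min hex hs)
  · refine hf.le_of_down ?_
    rw [Nat.find_spec hex]
    intro i hi
    exact absurd hi (by simp)

end Pool.Agent.U426.Piv
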